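import Mathlib

set_option autoImplicit false

namespace Pool.Agent.Lib.MP_cbc3a4_lc

open Finset

variable {V E : Type} [Fintype V] [DecidableEq V] [DecidableEq E] (u w : E → V)

/-- edges of `F` with exactly one end in `S` -/
def cut (F : Finset E) (S : Finset V) : Finset E :=
  F.filter (fun e => ¬ (u e ∈ S ↔ w e ∈ S))

/-- `e` has an end in `S` -/
def touch (e : E) (S : Finset V) : Prop := u e ∈ S ∨ w e ∈ S

/-- `S` is connected in the graph with edge set `F` -/
def Conn (F : Finset E) (S : Finset V) : Prop :=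
  ∀ A : Finset V, (S ∩ A).Nonempty → (S \ A).Nonempty → ∃ e ∈ cut u w F A, u e ∈ S ∧ w e ∈ S

variable {u w}

omit [Fintype V] [DecidableEq E] in
theorem mem_cut {F : Finset E} {S : Finset V} {e : E} :
    e ∈ cut u w F S ↔ e ∈ F ∧ ¬ (u e ∈ S ↔ w e ∈ S) := by
  simp [cut]

omit [Fintype V] [DecidableEq E] in
theorem cut_subset_cut {F F' : Finset E} (h : F' ⊆ F) (S : Finset V) :
    cut u w F' S ⊆ cut u w F S := fun e he => by
  rw [mem_cut] at he ⊢
  exact ⟨h he.1, he.2⟩

omit [Fintype V] [DecidableEq E] in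
theorem submod (F : Finset E) (A B : Finset V) :
    (cut u w F (A ∩ B)).card + (cut u w F (A ∪ B)).card ≤
      (cut u w F A).card + (cut u w F B).card := by
  simp only [cut, card_filter]
  rw [← sum_add_distrib, ← sum_add_distrib]
  apply sum_le_sum
  intro e _
  simp only [mem_inter, mem_union]
  by_cases h1 : u e ∈ A <;> by_cases h2 : u e ∈ B <;> by_cases h3 : w e ∈ A <;>
    by_cases h4 : w e ∈ B <;> simp [h1, h2, h3, h4]

omit [Fintype V] [DecidableEq E] in
theorem conn_union {F : Finset E} {A B : Finset V} (hA : Conn u w F A) (hB : Conn u w F B)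
    (h : (A ∩ B).Nonempty) : Conn u w F (A ∪ B) := by
  obtain ⟨x, hx⟩ := h
  rw [mem_inter] at hx
  intro C hC1 hC2
  obtain ⟨y, hy⟩ := hC1
  obtain ⟨z, hz⟩ := hC2
  simp only [mem_inter, mem_union, mem_sdiff] at hy hz
  by_cases hxC : x ∈ C
  · rcases hz.1 with h | h
    · obtain ⟨e, he, h1, h2⟩ := hA C ⟨x, by simp [hx.1, hxC]⟩ ⟨z, by simp [h, hz.2]⟩
      exact ⟨e, he, by simp [h1], by simp [h2]⟩
    · obtain ⟨e, he, h1, h2⟩ := hB C ⟨x, by simp [hx.2, hxC]⟩ ⟨z, by simp [h, hz.2]⟩
      exact ⟨e, he, by simp [h1], by simp [h2]⟩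
  · rcases hy.1 with h | h
    · obtain ⟨e, he, h1, h2⟩ := hA C ⟨y, by simp [h, hy.2]⟩ ⟨x, by simp [hx.1, hxC]⟩
      exact ⟨e, he, by simp [h1], by simp [h2]⟩
    · obtain ⟨e, he, h1, h2⟩ := hB C ⟨y, by simp [h, hy.2]⟩ ⟨x, by simp [hx.2, hxC]⟩
      exact ⟨e, he, by simp [h1], by simp [h2]⟩

omit [Fintype V] [DecidableEq E] in
theorem conn_singleton (F : Finset E) (t : V) : Conn u w F {t} := by
  intro A h1 h2
  obtain ⟨x, hx⟩ := h1
  obtain ⟨y, hy⟩ := h2
  simp only [mem_inter, mem_singleton, mem_sdiff] at hx hy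
  exact absurd (hx.1 ▸ hx.2) (hy.1 ▸ hy.2)

omit [Fintype V] [DecidableEq E] in
theorem conn_insert {F : Finset E} {A : Finset V} (hA : Conn u w F A) {e : E} {z a : V}
    (he : e ∈ F) (ha : a ∈ A) (hends : (u e = a ∧ w e = z) ∨ (u e = z ∧ w e = a)) :
    Conn u w F (insert z A) := by
  intro C hC1 hC2
  obtain ⟨x, hx⟩ := hC1
  obtain ⟨y, hy⟩ := hC2
  simp only [mem_inter, mem_insert, mem_sdiff] at hx hy
  by_cases h1 : (A ∩ C).Nonempty
  · by_cases h2 : (A \ C).Nonempty
    · obtain ⟨e, he, h3, h4⟩ := hA C h1 h2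
      exact ⟨e, he, by simp [h3], by simp [h4]⟩
    · rw [not_nonempty_iff_eq_empty, sdiff_eq_empty_iff_subset] at h2
      have hyz : y = z := by
        rcases hy.1 with h | h
        · exact h
        · exact absurd (h2 h) hy.2
      refine ⟨e, mem_cut.2 ⟨he, ?_⟩, ?_, ?_⟩
      · rcases hends with ⟨h5, h6⟩ | ⟨h5, h6⟩
        · rw [h5, h6]
          intro h
          exact hy.2 (hyz ▸ (h.1 (h2 ha)))
        · rw [h5, h6]
          intro h
          exact hy.2 (hyz ▸ (h.2 (h2 ha)))
      · rcases hends with ⟨h5, h6⟩ | ⟨h5, h6⟩ <;> simp [h5, ha]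
      · rcases hends with ⟨h5, h6⟩ | ⟨h5, h6⟩ <;> simp [h6, ha]
  · rw [not_nonempty_iff_eq_empty] at h1
    have h1' : ∀ v ∈ A, v ∉ C := by
      intro v hv hvC
      have : v ∈ A ∩ C := mem_inter.2 ⟨hv, hvC⟩
      rw [h1] at this
      simp at this
    have hxz : x = z := by
      rcases hx.1 with h | h
      · exact h
      · exact absurd hx.2 (h1' x h)
    refine ⟨e, mem_cut.2 ⟨he, ?_⟩, ?_, ?_⟩
    · rcases hends with ⟨h5, h6⟩ | ⟨h5, h6⟩
      · rw [h5, h6]
        intro h
        exact h1' a ha (h.2 (hxz ▸ hx.2))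
      · rw [h5, h6]
        intro h
        exact h1' a ha (h.1 (hxz ▸ hx.2))
    · rcases hends with ⟨h5, h6⟩ | ⟨h5, h6⟩ <;> simp [h5, ha]
    · rcases hends with ⟨h5, h6⟩ | ⟨h5, h6⟩ <;> simp [h6, ha]

omit [DecidableEq E] in
/-- The component of `S` containing the connected set `X`. -/
theorem exists_component {F : Finset E} {X S : Finset V} (hX : Conn u w F X)
    (hXS : X ⊆ S) :
    ∃ C, X ⊆ C ∧ C ⊆ S ∧ Conn u w F C ∧ cut u w F C ⊆ cut u w F S := by
  classical
  let P : Finset V → Prop := fun C => X ⊆ C ∧ C ⊆ S ∧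
    ∀ e ∈ cut u w F C, ¬ (u e ∈ S ∧ w e ∈ S)
  have hPS : P S := by
    refine ⟨hXS, subset_rfl, ?_⟩
    intro e he h
    rw [mem_cut] at he
    exact he.2 ⟨fun _ => h.2, fun _ => h.1⟩
  obtain ⟨C, hC, hmin⟩ := exists_min_image (univ.filter P) (fun C => C.card)
    ⟨S, by simp [hPS]⟩
  simp only [mem_filter, mem_univ, true_and] at hC hmin
  obtain ⟨hXC, hCS, hCc⟩ := hC
  refine ⟨C, hXC, hCS, ?_, ?_⟩
  · intro A h1 h2
    by_contra hcon
    push Not at hcon
    have key : ∀ C', X ⊆ C' → (C' = C ∩ A ∨ C' = C \ A) → C'.card < C.card → False := by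
      intro C' hXC' hC' hcard
      have hC'C : C' ⊆ C := by
        rcases hC' with h | h <;> rw [h]
        · exact inter_subset_left
        · exact sdiff_subset
      have hP : P C' := by
        refine ⟨hXC', hC'C.trans hCS, ?_⟩
        intro e he hS
        rw [mem_cut] at he
        by_cases hce : e ∈ cut u w F C
        · exact hCc e hce hS
        · rw [mem_cut] at hce
          have hiff : u e ∈ C ↔ w e ∈ C := by
            by_contra h
            exact hce ⟨he.1, h⟩
          have hboth : u e ∈ C ∧ w e ∈ C := by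
            by_cases huC : u e ∈ C
            · exact ⟨huC, hiff.1 huC⟩
            · exfalso
              apply he.2
              have h3 : u e ∉ C' := fun h => huC (hC'C h)
              have h4 : w e ∉ C' := fun h => huC (hiff.2 (hC'C h))
              exact ⟨fun h => absurd h h3, fun h => absurd h h4⟩
          have : e ∈ cut u w F A := by
            rw [mem_cut]
            refine ⟨he.1, ?_⟩
            intro hA
            apply he.2
            rcases hC' with h | h <;> rw [h] <;> simp [hboth.1, hboth.2, hA]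
          exact hcon e this hboth.1 hboth.2
      have := hmin C' hP
      omega
    by_cases hXA : (X ∩ A).Nonempty
    · by_cases hXA' : (X \ A).Nonempty
      · obtain ⟨e, he, h3, h4⟩ := hX A hXA hXA'
        exact hcon e he (hXC h3) (hXC h4)
      · rw [not_nonempty_iff_eq_empty, sdiff_eq_empty_iff_subset] at hXA'
        refine key (C ∩ A) (subset_inter hXC hXA') (Or.inl rfl) ?_
        apply card_lt_card
        refine ⟨inter_subset_left, ?_⟩
        intro h
        obtain ⟨y, hy⟩ := h2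
        rw [mem_sdiff] at hy
        exact hy.2 (mem_inter.1 (h hy.1)).2
    · rw [not_nonempty_iff_eq_empty] at hXA
      refine key (C \ A) ?_ (Or.inr rfl) ?_
      · intro x hx
        rw [mem_sdiff]
        refine ⟨hXC hx, fun h => ?_⟩
        have : x ∈ X ∩ A := mem_inter.2 ⟨hx, h⟩
        rw [hXA] at this
        simp at this
      · apply card_lt_card
        refine ⟨sdiff_subset, ?_⟩
        intro h
        obtain ⟨y, hy⟩ := h1
        rw [mem_inter] at hy
        exact (mem_sdiff.1 (h hy.1)).2 hy.2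
  · intro e he
    have he' := hCc e he
    rw [mem_cut] at he ⊢
    refine ⟨he.1, ?_⟩
    intro h
    by_cases huC : u e ∈ C
    · exact he' ⟨hCS huC, h.1 (hCS huC)⟩
    · by_cases hwC : w e ∈ C
      · exact he' ⟨h.2 (hCS hwC), hCS hwC⟩
      · exact he.2 ⟨fun h => absurd h huC, fun h => absurd h hwC⟩

omit [DecidableEq E] in
/-- The farthest minimum cut. -/
theorem farthest {F : Finset E} {X Y : Finset V} (hX : Conn u w F X) {l : ℕ}
    (hl : ∀ S, X ⊆ S → Disjoint S Y → l ≤ (cut u w F S).card)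
    (h0 : ∃ S, X ⊆ S ∧ Disjoint S Y ∧ (cut u w F S).card ≤ l) :
    ∃ A, X ⊆ A ∧ Disjoint A Y ∧ Conn u w F A ∧ (cut u w F A).card = l ∧
      (∀ z, z ∉ A → Conn u w F (insert z A) → ∀ S, insert z A ⊆ S → Disjoint S Y →
        l + 1 ≤ (cut u w F S).card) := by
  classical
  let P : Finset V → Prop := fun A => X ⊆ A ∧ Disjoint A Y ∧ Conn u w F A ∧
    (cut u w F A).card = l
  have hex : ∀ X' S : Finset V, Conn u w F X' → X ⊆ X' → X' ⊆ S → Disjoint S Y →
      (cut u w F S).card ≤ l → ∃ C, X' ⊆ C ∧ P C := by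
    intro X' S hX' hXX' hXS hSY hSc
    obtain ⟨C, h1, h2, h3, h4⟩ := exists_component hX' hXS
    have h5 : Disjoint C Y := hSY.mono_left h2
    refine ⟨C, h1, hXX'.trans h1, h5, h3, ?_⟩
    have h6 := card_le_card h4
    have h7 := hl C (hXX'.trans h1) h5
    omega
  obtain ⟨S0, hS1, hS2, hS3⟩ := h0
  obtain ⟨C0, _, hC0⟩ := hex X S0 hX subset_rfl hS1 hS2 hS3
  obtain ⟨A, hA, hmax⟩ := exists_max_image (univ.filter P) (fun C => C.card)
    ⟨C0, by simp [hC0]⟩
  simp only [mem_filter, mem_univ, true_and] at hA hmax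
  refine ⟨A, hA.1, hA.2.1, hA.2.2.1, hA.2.2.2, ?_⟩
  intro z hz hconn S hS hSY
  by_contra hlt
  push Not at hlt
  obtain ⟨C, hC1, hC2⟩ := hex (insert z A) S hconn (hA.1.trans (subset_insert z A)) hS hSY
    (by omega)
  have h1 := hmax C hC2
  have h2 : (insert z A).card ≤ C.card := card_le_card hC1
  rw [card_insert_of_notMem hz] at h2
  omega

end Pool.Agent.Lib.MP_cbc3a4_lc
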