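import Mathlib
import Pool.Agent.Lib.MP_cbc3a4_lc.Basic

set_option autoImplicit false

namespace Pool.Agent.Lib.MP_cbc3a4_lc

open Finset

variable {V E : Type} [Fintype V] [DecidableEq V] [DecidableEq E] {u w : E → V}

/-- A connected set containing `X`, disjoint from `Y`, with at most `D` boundary edges. -/
def Small (u w : E → V) (F : Finset E) (D : ℕ) (X Y S : Finset V) : Prop :=
  X ⊆ S ∧ Disjoint S Y ∧ Conn u w F S ∧ (cut u w F S).card ≤ D

omit [Fintype V] [DecidableEq E] in
theorem small_union {F : Finset E} {D l : ℕ} {X Y Y' A S : Finset V} (hne : X.Nonempty)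
    (hXA : X ⊆ A) (hAY : Disjoint A Y') (hA : Conn u w F A) (hAl : (cut u w F A).card = l)
    (hYY' : Y ⊆ Y')
    (hl : ∀ S, X ⊆ S → Disjoint S Y' → l ≤ (cut u w F S).card)
    (hS : Small u w F D X Y S) : Small u w F D X Y (S ∪ A) := by
  obtain ⟨h1, h2, h3, h4⟩ := hS
  obtain ⟨x, hx⟩ := hne
  refine ⟨h1.trans subset_union_left, ?_, ?_, ?_⟩
  · rw [disjoint_union_left]
    exact ⟨h2, hAY.mono_right hYY'⟩
  · exact conn_union h3 hA ⟨x, mem_inter.2 ⟨h1 hx, hXA hx⟩⟩
  · have h5 := submod (u := u) (w := w) F S A
    have h6 := hl (S ∩ A) (subset_inter h1 hXA) (hAY.mono_left inter_subset_right)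
    omega

/-- far end, as a function -/
def far (u w : E → V) (A : Finset V) (e : E) : V := if u e ∈ A then w e else u e

omit [Fintype V] [DecidableEq E] in
theorem far_spec {F : Finset E} {A : Finset V} {e : E} (he : e ∈ cut u w F A) :
    far u w A e ∉ A ∧ ∃ a ∈ A, (u e = a ∧ w e = far u w A e) ∨ (u e = far u w A e ∧ w e = a) := by
  rw [mem_cut] at he
  by_cases h : u e ∈ A
  · have h1 : w e ∉ A := fun h' => he.2 ⟨fun _ => h', fun _ => h⟩
    have h2 : far u w A e = w e := if_pos h
    rw [h2]
    exact ⟨h1, u e, h, Or.inl ⟨rfl, rfl⟩⟩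
  · have h1 : w e ∈ A := by
      by_contra h'
      exact he.2 ⟨fun h'' => absurd h'' h, fun h'' => absurd h'' h'⟩
    have h2 : far u w A e = u e := if_neg h
    rw [h2]
    exact ⟨h, w e, h1, Or.inr ⟨rfl, rfl⟩⟩

omit [Fintype V] [DecidableEq E] in
/-- A connected proper superset of `A` contains the far end of an edge leaving `A`. -/
theorem exists_far {F : Finset E} {A S : Finset V} (hS : Conn u w F S) (hAS : A ⊆ S)
    (hA : A.Nonempty) {x : V} (hx : x ∈ S) (hxA : x ∉ A) :
    ∃ e ∈ cut u w F A, far u w A e ∈ S ∧ far u w A e ∉ A := by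
  obtain ⟨a, ha⟩ := hA
  obtain ⟨e, he, h1, h2⟩ := hS A ⟨a, mem_inter.2 ⟨hAS ha, ha⟩⟩ ⟨x, mem_sdiff.2 ⟨hx, hxA⟩⟩
  refine ⟨e, he, ?_, (far_spec he).1⟩
  unfold far
  split_ifs
  · exact h2
  · exact h1

/-- union of all small sets -/
noncomputable def region (u w : E → V) (F : Finset E) (D : ℕ) (X Y : Finset V) : Finset V := by
  classical
  exact univ.filter (fun v => ∃ S, Small u w F D X Y S ∧ v ∈ S)

omit [DecidableEq E] in
theorem mem_region {F : Finset E} {D : ℕ} {X Y : Finset V} {v : V} :
    v ∈ region u w F D X Y ↔ ∃ S, Small u w F D X Y S ∧ v ∈ S := by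
  classical
  simp [region]

def bnd (D : ℕ) : ℕ → ℕ
  | 0 => 0
  | n + 1 => (D + 1) * (bnd D n + 1)

theorem bnd_le (D n : ℕ) : bnd D n ≤ bnd D (n + 1) := by
  simp only [bnd]
  nlinarith [Nat.zero_le (bnd D n), Nat.zero_le D, Nat.zero_le (D * bnd D n)]

/-- The region has a bounded boundary. -/
theorem card_cut_region {F : Finset E} {D : ℕ} {Y : Finset V} :
    ∀ (n : ℕ) (X : Finset V), Conn u w F X → X.Nonempty →
      (∀ S, X ⊆ S → Disjoint S Y → D + 1 ≤ (cut u w F S).card + n) →
      (cut u w F (region u w F D X Y)).card ≤ bnd D n := by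
  intro n
  induction n with
  | zero =>
    intro X hX hne h
    have : region u w F D X Y = ∅ := by
      rw [eq_empty_iff_forall_notMem]
      intro v hv
      rw [mem_region] at hv
      obtain ⟨S, ⟨h1, h2, h3, h4⟩, _⟩ := hv
      have := h S h1 h2
      omega
    rw [this]
    simp [cut, bnd]
  | succ n ih =>
    intro X hX hne h
    by_cases hc : ∀ S, X ⊆ S → Disjoint S Y → D + 1 ≤ (cut u w F S).card + n
    · exact (ih X hX hne hc).trans (bnd_le D n)
    push Not at hc
    obtain ⟨S0, h1, h2, h3⟩ := hc
    have h4 := h S0 h1 h2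
    set l := (cut u w F S0).card with hl
    have hnD : l + n = D := by omega
    obtain ⟨A, hXA, hAY, hAc, hAl, hAmax⟩ := farthest (l := l) (Y := Y) hX
      (fun S hS hSY => by have := h S hS hSY; omega) ⟨S0, h1, h2, le_rfl⟩
    have hAne : A.Nonempty := hne.mono hXA
    have hsub : cut u w F (region u w F D X Y) ⊆ cut u w F A ∪ (cut u w F A).biUnion
        (fun f => cut u w F (region u w F D (insert (far u w A f) A) Y)) := by
      have hreg : ∀ v, v ∈ region u w F D X Y ↔ v ∈ A ∨ ∃ f ∈ cut u w F A,
          v ∈ region u w F D (insert (far u w A f) A) Y := by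
        intro v
        constructor
        · intro hv
          rw [mem_region] at hv
          obtain ⟨S, hS, hvS⟩ := hv
          by_cases hvA : v ∈ A
          · exact Or.inl hvA
          right
          have hSA := small_union hne hXA hAY hAc hAl subset_rfl
            (fun S hS hSY => by have := h S hS hSY; omega) hS
          have hvSA : v ∈ S ∪ A := mem_union_left _ hvS
          obtain ⟨f, hf, hf1, hf2⟩ := exists_far hSA.2.2.1 subset_union_right hAne hvSA hvA
          refine ⟨f, hf, ?_⟩
          rw [mem_region]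
          refine ⟨S ∪ A, ⟨?_, hSA.2.1, hSA.2.2.1, hSA.2.2.2⟩, hvSA⟩
          exact insert_subset hf1 subset_union_right
        · rintro (hv | ⟨f, hf, hv⟩)
          · rw [mem_region]
            exact ⟨A, ⟨hXA, hAY, hAc, by omega⟩, hv⟩
          · rw [mem_region] at hv ⊢
            obtain ⟨S, ⟨h5, h6, h7, h8⟩, hvS⟩ := hv
            exact ⟨S, ⟨(hXA.trans (subset_insert _ _)).trans h5, h6, h7, h8⟩, hvS⟩
      intro e he
      rw [mem_union, mem_biUnion]
      by_contra hcon
      push Not at hcon
      obtain ⟨hc1, hc2⟩ := hcon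
      rw [mem_cut] at he
      apply he.2
      have hA' : u e ∈ A ↔ w e ∈ A := by
        by_contra hh
        exact hc1 (mem_cut.2 ⟨he.1, hh⟩)
      have hf' : ∀ f ∈ cut u w F A, (u e ∈ region u w F D (insert (far u w A f) A) Y ↔
          w e ∈ region u w F D (insert (far u w A f) A) Y) := by
        intro f hf
        by_contra hh
        exact hc2 f hf (mem_cut.2 ⟨he.1, hh⟩)
      rw [hreg, hreg, hA']
      constructor
      · rintro (h5 | ⟨f, hf, h5⟩)
        · exact Or.inl h5
        · exact Or.inr ⟨f, hf, (hf' f hf).1 h5⟩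
      · rintro (h5 | ⟨f, hf, h5⟩)
        · exact Or.inl h5
        · exact Or.inr ⟨f, hf, (hf' f hf).2 h5⟩
    have hbd : ∀ f ∈ cut u w F A,
        (cut u w F (region u w F D (insert (far u w A f) A) Y)).card ≤ bnd D n := by
      intro f hf
      obtain ⟨hfar, a, ha, hends⟩ := far_spec hf
      have hconn : Conn u w F (insert (far u w A f) A) :=
        conn_insert hAc (mem_cut.1 hf).1 ha hends
      apply ih _ hconn ⟨a, mem_insert_of_mem ha⟩
      intro S hS hSY
      have := hAmax _ hfar hconn S hS hSY
      omega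
    calc (cut u w F (region u w F D X Y)).card
        ≤ (cut u w F A ∪ (cut u w F A).biUnion
          (fun f => cut u w F (region u w F D (insert (far u w A f) A) Y))).card := card_le_card hsub
      _ ≤ (cut u w F A).card + ((cut u w F A).biUnion
          (fun f => cut u w F (region u w F D (insert (far u w A f) A) Y))).card :=
            card_union_le _ _
      _ ≤ (cut u w F A).card + (cut u w F A).card * bnd D n := by
            gcongr
            exact card_biUnion_le_card_mul _ _ _ hbd
      _ ≤ (D + 1) * (bnd D n + 1) := by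
            rw [hAl]
            have : l ≤ D := by omega
            nlinarith [Nat.zero_le (bnd D n), Nat.mul_le_mul_right (bnd D n) this]
      _ = bnd D (n + 1) := rfl

omit [DecidableEq E] in
/-- For terminals `Z`, few terminals share a vertex. -/
theorem card_tau {F : Finset E} {D : ℕ} {Z : Finset V} :
    ∀ (n : ℕ) (X : Finset V), Conn u w F X → X.Nonempty →
      (∀ S, X ⊆ S → Disjoint S Z → D + 1 ≤ (cut u w F S).card + n) →
      ∀ τ : Finset V, τ ⊆ Z → (∀ t ∈ τ, ∃ S, Small u w F D X (Z.erase t) S ∧ t ∈ S) →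
      τ.card ≤ (D + 1) ^ (n + 1) := by
  intro n
  induction n with
  | zero =>
    intro X hX hne h τ hτZ hτ
    by_cases hXZ : Disjoint X Z
    swap
    · rw [not_disjoint_iff] at hXZ
      obtain ⟨z, hzX, hzZ⟩ := hXZ
      have : τ ⊆ {z} := by
        intro t ht
        obtain ⟨S, hS, htS⟩ := hτ t ht
        rw [mem_singleton]
        by_contra hne'
        have := disjoint_left.1 hS.2.1 (hS.1 hzX)
        exact this (mem_erase.2 ⟨fun h => hne' h.symm, hzZ⟩)
      calc τ.card ≤ ({z} : Finset V).card := card_le_card this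
        _ = 1 := card_singleton z
        _ ≤ (D + 1) ^ (0 + 1) := by simp
    choose! S hS htS using hτ
    have key : ∀ σ : Finset V, σ ⊆ τ → σ.Nonempty →
        (cut u w F (σ.biUnion S)).card + σ.card ≤ D + 1 := by
      intro σ
      induction σ using Finset.induction_on with
      | empty => intro _ h; simp at h
      | @insert t σ htσ ih =>
        intro hσ _
        have htτ : t ∈ τ := hσ (mem_insert_self _ _)
        have hστ : σ ⊆ τ := (subset_insert _ _).trans hσ
        rw [biUnion_insert, card_insert_of_notMem htσ]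
        by_cases hσe : σ = ∅
        · subst hσe
          simp only [biUnion_empty, union_empty, card_empty]
          have := (hS t htτ).2.2.2
          omega
        · have hσne : σ.Nonempty := nonempty_iff_ne_empty.2 hσe
          have h1 := ih hστ hσne
          have h2 := submod (u := u) (w := w) F (S t) (σ.biUnion S)
          have h3 := (hS t htτ).2.2.2
          have h4 : D + 1 ≤ (cut u w F (S t ∩ σ.biUnion S)).card + 0 := by
            apply h
            · apply subset_inter (hS t htτ).1
              obtain ⟨s, hs⟩ := hσne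
              exact (hS s (hστ hs)).1.trans (subset_biUnion_of_mem S hs)
            · rw [disjoint_left]
              intro z hz hzZ
              rw [mem_inter, mem_biUnion] at hz
              obtain ⟨hz1, s, hs, hz2⟩ := hz
              have h5 : z = t := by
                by_contra hne'
                exact disjoint_left.1 (hS t htτ).2.1 hz1 (mem_erase.2 ⟨hne', hzZ⟩)
              have h6 : z = s := by
                by_contra hne'
                exact disjoint_left.1 (hS s (hστ hs)).2.1 hz2 (mem_erase.2 ⟨hne', hzZ⟩)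
              exact htσ (h5 ▸ h6 ▸ hs)
          omega
    by_cases hτe : τ = ∅
    · rw [hτe]; simp
    · have := key τ subset_rfl (nonempty_iff_ne_empty.2 hτe)
      simp only [zero_add, pow_one]
      omega
  | succ n ih =>
    intro X hX hne h τ hτZ hτ
    by_cases hc : ∀ S, X ⊆ S → Disjoint S Z → D + 1 ≤ (cut u w F S).card + n
    · refine (ih X hX hne hc τ hτZ hτ).trans ?_
      exact Nat.pow_le_pow_right (by omega) (by omega)
    push Not at hc
    obtain ⟨S0, h1, h2, h3⟩ := hc
    have h4 := h S0 h1 h2
    set l := (cut u w F S0).card with hl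
    have hnD : l + n = D := by omega
    obtain ⟨A, hXA, hAY, hAc, hAl, hAmax⟩ := farthest (l := l) (Y := Z) hX
      (fun S hS hSY => by have := h S hS hSY; omega) ⟨S0, h1, h2, le_rfl⟩
    have hAne : A.Nonempty := hne.mono hXA
    classical
    let τf : E → Finset V := fun f => τ.filter (fun t => ∃ S, Small u w F D
      (insert (far u w A f) A) (Z.erase t) S ∧ t ∈ S)
    have hsub : τ ⊆ (cut u w F A).biUnion τf := by
      intro t ht
      obtain ⟨S, hS, htS⟩ := hτ t ht
      have hSA := small_union hne hXA hAY hAc hAl (erase_subset t Z)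
        (fun S hS hSY => by have := h S hS hSY; omega) hS
      have htSA : t ∈ S ∪ A := mem_union_left _ htS
      have htA : t ∉ A := fun h => disjoint_left.1 hAY h (hτZ ht)
      obtain ⟨f, hf, hf1, hf2⟩ := exists_far hSA.2.2.1 subset_union_right hAne htSA htA
      rw [mem_biUnion]
      refine ⟨f, hf, mem_filter.2 ⟨ht, S ∪ A, ⟨?_, hSA.2.1, hSA.2.2.1, hSA.2.2.2⟩, htSA⟩⟩
      exact insert_subset hf1 subset_union_right
    have hbd : ∀ f ∈ cut u w F A, (τf f).card ≤ (D + 1) ^ (n + 1) := by
      intro f hf
      obtain ⟨hfar, a, ha, hends⟩ := far_spec hf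
      have hconn : Conn u w F (insert (far u w A f) A) :=
        conn_insert hAc (mem_cut.1 hf).1 ha hends
      refine ih (insert (far u w A f) A) hconn ⟨a, mem_insert_of_mem ha⟩ ?_ (τf f)
        ((filter_subset _ _).trans hτZ) (fun t ht => (mem_filter.1 ht).2)
      intro S hS hSY
      have := hAmax _ hfar hconn S hS hSY
      omega
    calc τ.card ≤ ((cut u w F A).biUnion τf).card := card_le_card hsub
      _ ≤ (cut u w F A).card * (D + 1) ^ (n + 1) := card_biUnion_le_card_mul _ _ _ hbd
      _ ≤ (D + 1) * (D + 1) ^ (n + 1) := by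
          gcongr
          omega
      _ = (D + 1) ^ (n + 1 + 1) := by ring

end Pool.Agent.Lib.MP_cbc3a4_lc
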