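import Mathlib
import Pool.Agent.Lib.MP_cbc3a4_lc.Region

set_option autoImplicit false

namespace Pool.Agent.Lib.MP_cbc3a4_lc

open Finset

variable {V E : Type} [Fintype V] [DecidableEq V] [DecidableEq E] {u w : E → V}

omit [Fintype V] [DecidableEq V] in
/-- A finite set splits into classes of size at most `2K`, and at least `K` unless there is
only one class. -/
theorem exists_blocks (K : ℕ) (hK : 1 ≤ K) : ∀ (n : ℕ) (X : Finset E), X.card = n →
    ∃ c : E → ℕ, ∀ e ∈ X, (X.filter (fun e' => c e' = c e)).card ≤ 2 * K ∧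
      (X.filter (fun e' => c e' = c e) = X ∨ K ≤ (X.filter (fun e' => c e' = c e)).card) := by
  intro n
  induction n using Nat.strong_induction_on with
  | _ n ih =>
    intro X hXn
    by_cases hsmall : X.card ≤ 2 * K
    · refine ⟨fun _ => 0, fun e _ => ⟨?_, Or.inl ?_⟩⟩
      · simpa using hsmall
      · simp
    push Not at hsmall
    obtain ⟨Y, hYX, hYK⟩ := exists_subset_card_eq (s := X) (n := K) (by omega)
    have hcard : (X \ Y).card = X.card - K := by rw [card_sdiff_of_subset hYX, hYK]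
    obtain ⟨c, hc⟩ := ih (X \ Y).card (by omega) (X \ Y) rfl
    refine ⟨fun e => if e ∈ Y then 0 else c e + 1, ?_⟩
    intro e he
    by_cases heY : e ∈ Y
    · have : X.filter (fun e' => (if e' ∈ Y then 0 else c e' + 1) =
          (if e ∈ Y then 0 else c e + 1)) = Y := by
        ext e'
        simp only [mem_filter, heY, if_true]
        constructor
        · rintro ⟨_, h⟩
          by_contra h'
          simp [h'] at h
        · intro h
          exact ⟨hYX h, by simp [h]⟩
      rw [this, hYK]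
      exact ⟨by omega, Or.inr le_rfl⟩
    · have : X.filter (fun e' => (if e' ∈ Y then 0 else c e' + 1) =
          (if e ∈ Y then 0 else c e + 1)) = (X \ Y).filter (fun e' => c e' = c e) := by
        ext e'
        simp only [mem_filter, heY, if_false, mem_sdiff]
        constructor
        · rintro ⟨h1, h2⟩
          by_cases h : e' ∈ Y
          · simp [h] at h2
          · simp only [h, if_false] at h2
            exact ⟨⟨h1, h⟩, by omega⟩
        · rintro ⟨⟨h1, h2⟩, h3⟩
          exact ⟨h1, by simp [h2, h3]⟩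
      rw [this]
      obtain ⟨h1, h2⟩ := hc e (mem_sdiff.2 ⟨he, heY⟩)
      refine ⟨h1, Or.inr ?_⟩
      rcases h2 with h2 | h2
      · rw [h2, hcard]
        omega
      · exact h2

/-- reachability in `i` steps -/
def NN (arrow : V → V → Prop) : ℕ → V → V → Prop
  | 0, t, t' => t = t'
  | i + 1, t, t' => ∃ s, NN arrow i t s ∧ (s = t' ∨ arrow s t')

omit [Fintype V] [DecidableEq V] in
theorem NN_succ {arrow : V → V → Prop} {i : ℕ} {t t' : V} (h : NN arrow i t t') :
    NN arrow (i + 1) t t' := ⟨t', h, Or.inl rfl⟩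

omit [Fintype V] [DecidableEq V] in
theorem NN_mono {arrow : V → V → Prop} {i j : ℕ} (hij : i ≤ j) {t t' : V}
    (h : NN arrow i t t') : NN arrow j t t' := by
  induction j, hij using Nat.le_induction with
  | base => exact h
  | succ j _ ih => exact NN_succ ih

omit [Fintype V] [DecidableEq V] in
theorem NN_arrow {arrow : V → V → Prop} {i : ℕ} {t s t' : V} (h : NN arrow i t s)
    (h' : arrow s t') : NN arrow (i + 1) t t' := ⟨s, h, Or.inr h'⟩

/-- `v` is an end of `e` -/
def inc (u w : E → V) (v : V) (e : E) : Prop := u e = v ∨ w e = v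

/-- edges of `F` at `v` in the same class as `e` -/
noncomputable def cls (u w : E → V) (F : Finset E) (c : V → E → ℕ) (v : V) (e : E) : Finset E := by
  classical
  exact (F.filter (fun e' => inc u w v e')).filter (fun e' => c v e' = c v e)

/-- two edges are near -/
def near (u w : E → V) (c : V → E → ℕ) (e e' : E) : Prop :=
  e = e' ∨ ∃ v, inc u w v e ∧ inc u w v e' ∧ c v e = c v e'

/-- the arrow relation on terminals -/
def Arrow (u w : E → V) (F : Finset E) (c : V → E → ℕ) (T : Finset V) (R : V → Finset V)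
    (B : ℕ) (s t : V) : Prop :=
  t ∈ T ∧ (cut u w F (R t)).card ≤ B ∧ ∃ g1 ∈ cut u w F (R t), ∃ g0 ∈ F,
    touch (u := u) (w := w) g0 (R s) ∧ near u w c g0 g1

/-- the edge set chosen for `t` -/
noncomputable def Fsel (u w : E → V) (F : Finset E) (c : V → E → ℕ) (T : Finset V)
    (R : V → Finset V) (B k : ℕ) (t : V) : Finset E := by
  classical
  exact F.filter (fun e => ∃ t' ∈ T, NN (Arrow u w F c T R B) k t t' ∧ touch (u := u) (w := w) e (R t'))

/-- the hypotheses on the regions -/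
structure Regions (u w : E → V) (F : Finset E) (Z T : Finset V) (R : V → Finset V)
    (c : V → E → ℕ) (g B K : ℕ) : Prop where
  TZ : T ⊆ Z
  mem : ∀ t ∈ T, t ∈ R t
  disj : ∀ t ∈ T, Disjoint (R t) (Z.erase t)
  conn : ∀ t ∈ T, Conn u w F (R t)
  overlap : ∀ v, ∀ τ : Finset V, τ ⊆ T → (∀ t ∈ τ, v ∈ R t) → τ.card ≤ g
  good : ∀ t ∈ T, ∀ v ∈ R t, v ≠ t → (cut u w F (R t)).card ≤ B
  owner : ∀ e ∈ F, ∃ t ∈ T, touch (u := u) (w := w) e (R t) ∧ (cut u w F (R t)).card ≤ B
  blk1 : ∀ v, ∀ e ∈ F, inc u w v e → (cls u w F c v e).card ≤ 2 * K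
  blk2 : ∀ v, ∀ e ∈ F, inc u w v e → (∀ e' ∈ F, inc u w v e' → e' ∈ cls u w F c v e) ∨
    K ≤ (cls u w F c v e).card

omit [Fintype V] in
theorem escape {F : Finset E} {Z T : Finset V} {R : V → Finset V} {c : V → E → ℕ}
    {g B K k D : ℕ} (h : Regions u w F Z T R c g B K) (hk : k = 2 * g * D + 1)
    (hK : K = (2 * g * D + 1) * B + 1) {t : V} (ht : t ∈ T) {S : Finset V} (hS : Conn u w F S)
    (htS : t ∈ S) (hSZ : Disjoint S (Z.erase t)) :
    cut u w F S ⊆ Fsel u w F c T R B k t ∨
      D ≤ (cut u w (Fsel u w F c T R B k t) S).card := by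
  classical
  by_contra hcon
  push Not at hcon
  obtain ⟨hnot, hlt⟩ := hcon
  set A := Arrow u w F c T R B with hA
  have hother : ∀ t' ∈ T, t' ≠ t → t' ∉ S := by
    intro t' ht' hne h'
    exact disjoint_left.1 hSZ h' (mem_erase.2 ⟨hne, h.TZ ht'⟩)
  -- the set of terminals whose region is touched by a boundary edge of `S`
  set W : Finset V := T.filter (fun t' => NN A k t t' ∧ t' ≠ t ∧
    ∃ e ∈ cut u w F S, touch (u := u) (w := w) e (R t')) with hW
  have hWcard : W.card ≤ 2 * g * D := by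
    have hsub : W ⊆ (cut u w (Fsel u w F c T R B k t) S).biUnion
        (fun e => T.filter (fun t' => touch (u := u) (w := w) e (R t'))) := by
      intro t' ht'
      rw [hW, mem_filter] at ht'
      obtain ⟨h1, h2, _, e, he, h4⟩ := ht'
      rw [mem_biUnion]
      refine ⟨e, ?_, mem_filter.2 ⟨h1, h4⟩⟩
      rw [mem_cut] at he ⊢
      refine ⟨?_, he.2⟩
      simp only [Fsel, mem_filter]
      exact ⟨he.1, t', h1, h2, h4⟩
    have hfib : ∀ e ∈ cut u w (Fsel u w F c T R B k t) S,
        (T.filter (fun t' => touch (u := u) (w := w) e (R t'))).card ≤ 2 * g := by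
      intro e _
      have : T.filter (fun t' => touch (u := u) (w := w) e (R t')) =
          T.filter (fun t' => u e ∈ R t') ∪ T.filter (fun t' => w e ∈ R t') := by
        ext x
        rw [mem_union, mem_filter, mem_filter, mem_filter]
        exact and_or_left
      rw [this]
      have h1 := h.overlap (u e) (T.filter (fun t' => u e ∈ R t')) (filter_subset _ _)
        (fun t' ht' => (mem_filter.1 ht').2)
      have h2 := h.overlap (w e) (T.filter (fun t' => w e ∈ R t')) (filter_subset _ _)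
        (fun t' ht' => (mem_filter.1 ht').2)
      have h3 := card_union_le (T.filter (fun t' => u e ∈ R t')) (T.filter (fun t' => w e ∈ R t'))
      omega
    calc W.card ≤ _ := card_le_card hsub
      _ ≤ (cut u w (Fsel u w F c T R B k t) S).card * (2 * g) := card_biUnion_le_card_mul _ _ _ hfib
      _ ≤ D * (2 * g) := by gcongr
      _ = 2 * g * D := by ring
  -- (i)
  have hmeet : ∀ t' ∈ T, t' ≠ t → NN A k t t' → (∃ x ∈ R t', x ∈ S) → t' ∈ W := by
    intro t' ht' hne hN ⟨x, hx1, hx2⟩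
    have := h.conn t' ht' S ⟨x, mem_inter.2 ⟨hx1, hx2⟩⟩
      ⟨t', mem_sdiff.2 ⟨h.mem t' ht', hother t' ht' hne⟩⟩
    obtain ⟨e, he, h1, h2⟩ := this
    rw [hW, mem_filter]
    exact ⟨ht', hN, hne, e, he, Or.inl h1⟩
  -- the far end of an edge at a hub
  have hubfar : ∀ a, (∀ t' ∈ T, a ∉ R t') → ∀ e ∈ F, inc u w a e → ∀ t1 ∈ T,
      touch (u := u) (w := w) e (R t1) → e ∈ cut u w F (R t1) := by
    intro a ha e he hinc t1 ht1 htouch
    rw [mem_cut]
    refine ⟨he, ?_⟩
    intro hiff
    have h1 := ha t1 ht1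
    rcases htouch with h2 | h2
    · rcases hinc with h3 | h3
      · exact h1 (h3 ▸ h2)
      · exact h1 (h3 ▸ hiff.1 h2)
    · rcases hinc with h3 | h3
      · exact h1 (h3 ▸ hiff.2 h2)
      · exact h1 (h3 ▸ h2)
  -- (ii)
  have hhub : ∀ a ∈ S, (∀ t' ∈ T, a ∉ R t') → ∀ g0 ∈ F, inc u w a g0 → ∀ t' i, i < k →
      NN A i t t' → touch (u := u) (w := w) g0 (R t') →
      ∀ e' ∈ F, inc u w a e' → e' ∈ cls u w F c a g0 := by
    intro a haS ha g0 hg0 hinc t' i hik hN htouch
    rcases h.blk2 a g0 hg0 hinc with h1 | h1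
    · exact h1
    exfalso
    have hsub : cls u w F c a g0 ⊆ (insert t W).biUnion
        (fun t1 => (cut u w F (R t1)).filter (fun _ => (cut u w F (R t1)).card ≤ B)) := by
      intro g1 hg1
      simp only [cls, mem_filter] at hg1
      obtain ⟨⟨hg1F, hg1a⟩, hg1c⟩ := hg1
      obtain ⟨t1, ht1, htouch1, hB1⟩ := h.owner g1 hg1F
      have hcut := hubfar a ha g1 hg1F hg1a t1 ht1 htouch1
      have harr : A t' t1 := ⟨ht1, hB1, g1, hcut, g0, hg0, htouch,
        Or.inr ⟨a, hinc, hg1a, hg1c.symm⟩⟩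
      have hN1 : NN A k t t1 := NN_mono (by omega) (NN_arrow hN harr)
      rw [mem_biUnion]
      refine ⟨t1, ?_, mem_filter.2 ⟨hcut, hB1⟩⟩
      by_cases hne : t1 = t
      · rw [hne]; exact mem_insert_self _ _
      apply mem_insert_of_mem
      -- the other end
      obtain ⟨b, hb, hbinc⟩ : ∃ b, b ∈ R t1 ∧ ((u g1 = a ∧ w g1 = b) ∨ (u g1 = b ∧ w g1 = a)) := by
        have ha1 := ha t1 ht1
        rcases htouch1 with h2 | h2
        · refine ⟨u g1, h2, Or.inr ⟨rfl, ?_⟩⟩
          rcases hg1a with h3 | h3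
          · exact absurd (h3 ▸ h2) ha1
          · exact h3
        · refine ⟨w g1, h2, Or.inl ⟨?_, rfl⟩⟩
          rcases hg1a with h3 | h3
          · exact h3
          · exact absurd (h3 ▸ h2) ha1
      by_cases hbS : b ∈ S
      · exact hmeet t1 ht1 hne hN1 ⟨b, hb, hbS⟩
      · rw [hW, mem_filter]
        refine ⟨ht1, hN1, hne, g1, mem_cut.2 ⟨hg1F, ?_⟩, htouch1⟩
        intro hiff
        rcases hbinc with ⟨h2, h3⟩ | ⟨h2, h3⟩
        · rw [h2, h3] at hiff
          exact hbS (hiff.1 haS)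
        · rw [h2, h3] at hiff
          exact hbS (hiff.2 haS)
    have hcardle : (cls u w F c a g0).card ≤ (2 * g * D + 1) * B := by
      calc (cls u w F c a g0).card ≤ _ := card_le_card hsub
        _ ≤ (insert t W).card * B := by
            apply card_biUnion_le_card_mul
            intro t1 _
            by_cases hB1 : (cut u w F (R t1)).card ≤ B
            · exact (card_filter_le _ _).trans hB1
            · simp [hB1]
        _ ≤ (2 * g * D + 1) * B := by
            gcongr
            exact (card_insert_le _ _).trans (by omega)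
    omega
  -- (iii)
  set Wi : ℕ → Finset V := fun i => T.filter (fun t' => NN A i t t' ∧ ∃ x ∈ R t', x ∈ S) with hWi
  have hWmono : ∀ i, Wi i ⊆ Wi (i + 1) := by
    intro i t' ht'
    rw [hWi, mem_filter] at ht' ⊢
    exact ⟨ht'.1, NN_succ ht'.2.1, ht'.2.2⟩
  have hWk : (Wi k).card ≤ 2 * g * D + 1 := by
    have : Wi k ⊆ insert t W := by
      intro t' ht'
      rw [hWi, mem_filter] at ht'
      rw [mem_insert]
      by_cases hne : t' = t
      · exact Or.inl hne
      · exact Or.inr (hmeet t' ht'.1 hne ht'.2.1 ht'.2.2)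
    calc (Wi k).card ≤ _ := card_le_card this
      _ ≤ W.card + 1 := card_insert_le _ _
      _ ≤ _ := by omega
  have ht0 : ∀ i, t ∈ Wi i := by
    intro i
    rw [hWi, mem_filter]
    exact ⟨ht, NN_mono (Nat.zero_le i) rfl, t, h.mem t ht, htS⟩
  obtain ⟨i, hik, hstab⟩ : ∃ i, i < k ∧ Wi (i + 1) ⊆ Wi i := by
    by_contra hno
    push Not at hno
    have : ∀ i, i ≤ k → i + 1 ≤ (Wi i).card := by
      intro i
      induction i with
      | zero =>
        intro _
        exact card_pos.2 ⟨t, ht0 0⟩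
      | succ i ih =>
        intro hi
        have h1 := ih (by omega)
        have h2 := hno i (by omega)
        have h3 : (Wi i).card < (Wi (i + 1)).card := card_lt_card ⟨hWmono i, h2⟩
        omega
    have := this k le_rfl
    omega
  -- (iv)
  set Y : Finset V := S.filter (fun v => (∃ t' ∈ Wi i, v ∈ R t') ∨ ((∀ t' ∈ T, v ∉ R t') ∧
    ∃ g0 ∈ F, inc u w v g0 ∧ ∃ t' ∈ Wi i, touch (u := u) (w := w) g0 (R t'))) with hY
  have hWiT : ∀ t' ∈ Wi i, t' ∈ T ∧ NN A i t t' := by
    intro t' ht'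
    rw [hWi, mem_filter] at ht'
    exact ⟨ht'.1, ht'.2.1⟩
  -- one step from Y stays in Y
  have hstep : ∀ a b g1, a ∈ Y → b ∈ S → g1 ∈ F →
      ((u g1 = a ∧ w g1 = b) ∨ (u g1 = b ∧ w g1 = a)) → b ∈ Y := by
    intro a b g1 haY hbS hg1 hends
    by_contra hbY
    rw [hY, mem_filter] at haY
    obtain ⟨haS, haY⟩ := haY
    have hinca : inc u w a g1 := by
      rcases hends with ⟨h1, _⟩ | ⟨_, h1⟩
      · exact Or.inl h1
      · exact Or.inr h1
    have hincb : inc u w b g1 := by
      rcases hends with ⟨_, h1⟩ | ⟨h1, _⟩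
      · exact Or.inr h1
      · exact Or.inl h1
    have hfin : ∀ t'' ∈ T, NN A (i + 1) t t'' → b ∈ R t'' → False := by
      intro t'' ht'' hN hb
      apply hbY
      rw [hY, mem_filter]
      refine ⟨hbS, Or.inl ⟨t'', hstab ?_, hb⟩⟩
      rw [hWi, mem_filter]
      exact ⟨ht'', hN, b, hb, hbS⟩
    rcases haY with ⟨t', ht', haR⟩ | ⟨hahub, g0, hg0, hinc0, t', ht', htouch0⟩
    · obtain ⟨ht'T, ht'N⟩ := hWiT t' ht'
      have hbR : b ∉ R t' := fun hb => hfin t' ht'T (NN_succ ht'N) hb
      have htouch : touch (u := u) (w := w) g1 (R t') := by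
        rcases hends with ⟨h1, _⟩ | ⟨_, h1⟩
        · exact Or.inl (h1 ▸ haR)
        · exact Or.inr (h1 ▸ haR)
      by_cases hb : ∃ t'' ∈ T, b ∈ R t''
      · obtain ⟨t'', ht'', hbR''⟩ := hb
        have hne : t'' ≠ t := by
          rintro rfl
          exact hfin t'' ht'' (NN_mono (Nat.zero_le _) rfl) hbR''
        have hbt : b ≠ t'' := fun hbt => hother t'' ht'' hne (hbt ▸ hbS)
        have hgood := h.good t'' ht'' b hbR'' hbt
        have harr : A t' t'' := by
          refine ⟨ht'', hgood, ?_⟩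
          by_cases haR'' : a ∈ R t''
          · have hne' : t' ≠ t'' := fun hh => hbR (hh ▸ hbR'')
            have hnot' : t' ∉ R t'' := by
              intro hh
              exact disjoint_left.1 (h.disj t'' ht'') hh (mem_erase.2 ⟨hne', h.TZ ht'T⟩)
            obtain ⟨e, he, h1, h2⟩ := h.conn t' ht'T (R t'') ⟨a, mem_inter.2 ⟨haR, haR''⟩⟩
              ⟨t', mem_sdiff.2 ⟨h.mem t' ht'T, hnot'⟩⟩
            exact ⟨e, he, e, (mem_cut.1 he).1, Or.inl h1, Or.inl rfl⟩
          · refine ⟨g1, mem_cut.2 ⟨hg1, ?_⟩, g1, hg1, htouch, Or.inl rfl⟩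
            intro hiff
            rcases hends with ⟨h1, h2⟩ | ⟨h1, h2⟩
            · rw [h1, h2] at hiff
              exact haR'' (hiff.2 hbR'')
            · rw [h1, h2] at hiff
              exact haR'' (hiff.1 hbR'')
        exact hfin t'' ht'' (NN_arrow ht'N harr) hbR''
      · push Not at hb
        apply hbY
        rw [hY, mem_filter]
        exact ⟨hbS, Or.inr ⟨hb, g1, hg1, hincb, t', ht', htouch⟩⟩
    · obtain ⟨ht'T, ht'N⟩ := hWiT t' ht'
      have hcls := hhub a haS hahub g0 hg0 hinc0 t' i hik ht'N htouch0 g1 hg1 hinca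
      simp only [cls, mem_filter] at hcls
      obtain ⟨t'', ht'', htouch'', hB''⟩ := h.owner g1 hg1
      have hcut := hubfar a hahub g1 hg1 hinca t'' ht'' htouch''
      have harr : A t' t'' := ⟨ht'', hB'', g1, hcut, g0, hg0, htouch0,
        Or.inr ⟨a, hinc0, hinca, hcls.2.symm⟩⟩
      apply hfin t'' ht'' (NN_arrow ht'N harr)
      have ha'' := hahub t'' ht''
      rcases hends with ⟨h1, h2⟩ | ⟨h1, h2⟩
      · rcases htouch'' with h3 | h3
        · exact absurd (h1 ▸ h3) ha''
        · exact h2 ▸ h3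
      · rcases htouch'' with h3 | h3
        · exact h1 ▸ h3
        · exact absurd (h2 ▸ h3) ha''
  have hYS : ∀ x ∈ S, x ∈ Y := by
    by_contra hno
    push Not at hno
    obtain ⟨x, hxS, hxY⟩ := hno
    have htY : t ∈ Y := by
      rw [hY, mem_filter]
      exact ⟨htS, Or.inl ⟨t, ht0 i, h.mem t ht⟩⟩
    obtain ⟨e, he, h1, h2⟩ := hS Y ⟨t, mem_inter.2 ⟨htS, htY⟩⟩ ⟨x, mem_sdiff.2 ⟨hxS, hxY⟩⟩
    rw [mem_cut] at he
    apply he.2
    constructor
    · intro h3
      exact hstep (u e) (w e) e h3 h2 he.1 (Or.inl ⟨rfl, rfl⟩)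
    · intro h3
      exact hstep (w e) (u e) e h3 h1 he.1 (Or.inr ⟨rfl, rfl⟩)
  -- (v)
  apply hnot
  intro e he
  have heF := (mem_cut.1 he).1
  obtain ⟨a, haS, hinca⟩ : ∃ a ∈ S, inc u w a e := by
    rw [mem_cut] at he
    by_cases h1 : u e ∈ S
    · exact ⟨u e, h1, Or.inl rfl⟩
    · refine ⟨w e, ?_, Or.inr rfl⟩
      by_contra h2
      exact he.2 ⟨fun h3 => absurd h3 h1, fun h3 => absurd h3 h2⟩
  have haY := hYS a haS
  rw [hY, mem_filter] at haY
  simp only [Fsel, mem_filter]
  refine ⟨heF, ?_⟩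
  rcases haY.2 with ⟨t', ht', haR⟩ | ⟨hahub, g0, hg0, hinc0, t', ht', htouch0⟩
  · obtain ⟨ht'T, ht'N⟩ := hWiT t' ht'
    refine ⟨t', ht'T, NN_mono hik.le ht'N, ?_⟩
    rcases hinca with h1 | h1
    · exact Or.inl (h1 ▸ haR)
    · exact Or.inr (h1 ▸ haR)
  · obtain ⟨ht'T, ht'N⟩ := hWiT t' ht'
    have hcls := hhub a haS hahub g0 hg0 hinc0 t' i hik ht'N htouch0 e heF hinca
    simp only [cls, mem_filter] at hcls
    obtain ⟨t'', ht'', htouch'', hB''⟩ := h.owner e heF
    have hcut := hubfar a hahub e heF hinca t'' ht'' htouch''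
    have harr : A t' t'' := ⟨ht'', hB'', e, hcut, g0, hg0, htouch0,
      Or.inr ⟨a, hinc0, hinca, hcls.2.symm⟩⟩
    exact ⟨t'', ht'', NN_mono (by omega) (NN_arrow ht'N harr), htouch''⟩

end Pool.Agent.Lib.MP_cbc3a4_lc
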