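import Mathlib
import Pool.Agent.Lib.MP_cbc3a4_lc.Escape

set_option autoImplicit false

namespace Pool.Agent.Lib.MP_cbc3a4_lc

open Finset

variable {V E : Type} [Fintype V] [DecidableEq V] [DecidableEq E] {u w : E → V}

omit [Fintype V] in
theorem card_arrow {F : Finset E} {Z T : Finset V} {R : V → Finset V} {c : V → E → ℕ}
    {g B K : ℕ} (h : Regions u w F Z T R c g B K) (t : V) (τ : Finset V) (hτT : τ ⊆ T)
    (hτ : ∀ s ∈ τ, Arrow u w F c T R B s t) :
    τ.card ≤ B * ((4 * K + 1) * (2 * g)) := by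
  classical
  by_cases hB : (cut u w F (R t)).card ≤ B
  swap
  · have : τ = ∅ := by
      rw [eq_empty_iff_forall_notMem]
      intro s hs
      exact hB (hτ s hs).2.1
    rw [this]; simp
  let nb : E → Finset E := fun g1 => insert g1 (cls u w F c (u g1) g1 ∪ cls u w F c (w g1) g1)
  have hsub : τ ⊆ (cut u w F (R t)).biUnion (fun g1 => (nb g1).biUnion
      (fun g0 => T.filter (fun s => touch (u := u) (w := w) g0 (R s)))) := by
    intro s hs
    obtain ⟨_, _, g1, hg1, g0, hg0, htouch, hnear⟩ := hτ s hs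
    rw [mem_biUnion]
    refine ⟨g1, hg1, ?_⟩
    rw [mem_biUnion]
    refine ⟨g0, ?_, mem_filter.2 ⟨hτT hs, htouch⟩⟩
    rcases hnear with rfl | ⟨v, hv0, hv1, hc⟩
    · exact mem_insert_self _ _
    · apply mem_insert_of_mem
      rw [mem_union]
      rcases hv1 with h1 | h1
      · left
        rw [h1]
        simp only [cls, mem_filter]
        exact ⟨⟨hg0, hv0⟩, hc⟩
      · right
        rw [h1]
        simp only [cls, mem_filter]
        exact ⟨⟨hg0, hv0⟩, hc⟩
  have htouchcard : ∀ g0, (T.filter (fun s => touch (u := u) (w := w) g0 (R s))).card ≤ 2 * g := by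
    intro e
    have : T.filter (fun t' => touch (u := u) (w := w) e (R t')) =
        T.filter (fun t' => u e ∈ R t') ∪ T.filter (fun t' => w e ∈ R t') := by
      ext x
      rw [mem_union, mem_filter, mem_filter, mem_filter]
      exact and_or_left
    rw [this]
    have h1 := h.overlap (u e) (T.filter (fun t' => u e ∈ R t')) (filter_subset _ _)
      (fun t' ht' => (mem_filter.1 ht').2)
    have h2 := h.overlap (w e) (T.filter (fun t' => w e ∈ R t')) (filter_subset _ _)
      (fun t' ht' => (mem_filter.1 ht').2)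
    have h3 := card_union_le (T.filter (fun t' => u e ∈ R t')) (T.filter (fun t' => w e ∈ R t'))
    omega
  have hnb : ∀ g1 ∈ cut u w F (R t), (nb g1).card ≤ 4 * K + 1 := by
    intro g1 hg1
    have hF := (mem_cut.1 hg1).1
    have h1 := h.blk1 (u g1) g1 hF (Or.inl rfl)
    have h2 := h.blk1 (w g1) g1 hF (Or.inr rfl)
    have h3 := card_union_le (cls u w F c (u g1) g1) (cls u w F c (w g1) g1)
    have h4 := card_insert_le g1 (cls u w F c (u g1) g1 ∪ cls u w F c (w g1) g1)
    show (insert g1 _ : Finset E).card ≤ _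
    omega
  calc τ.card ≤ _ := card_le_card hsub
    _ ≤ (cut u w F (R t)).card * ((4 * K + 1) * (2 * g)) := by
        apply card_biUnion_le_card_mul
        intro g1 hg1
        calc _ ≤ (nb g1).card * (2 * g) := card_biUnion_le_card_mul _ _ _ (fun g0 _ => htouchcard g0)
          _ ≤ (4 * K + 1) * (2 * g) := Nat.mul_le_mul_right _ (hnb g1 hg1)
    _ ≤ B * ((4 * K + 1) * (2 * g)) := Nat.mul_le_mul_right _ hB

omit [Fintype V] [DecidableEq V] [DecidableEq E] in
theorem NN_mem [DecidableEq V] {F : Finset E} {T : Finset V} {R : V → Finset V} {c : V → E → ℕ}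
    {B : ℕ} {t : V} (ht : t ∈ T) : ∀ i t', NN (Arrow u w F c T R B) i t t' → t' ∈ T := by
  intro i
  induction i with
  | zero => intro t' h; exact h ▸ ht
  | succ i ih =>
    rintro t' ⟨s, hs, h | h⟩
    · exact h ▸ ih s hs
    · exact h.1

omit [Fintype V] in
theorem card_NN {F : Finset E} {Z T : Finset V} {R : V → Finset V} {c : V → E → ℕ}
    {g B K : ℕ} (h : Regions u w F Z T R c g B K) :
    ∀ (i : ℕ) (t' : V) (τ : Finset V), τ ⊆ T → (∀ t ∈ τ, NN (Arrow u w F c T R B) i t t') →
      τ.card ≤ (B * ((4 * K + 1) * (2 * g)) + 1) ^ i := by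
  classical
  intro i
  induction i with
  | zero =>
    intro t' τ _ hτ
    have : τ ⊆ {t'} := fun t ht => mem_singleton.2 (hτ t ht)
    simpa using card_le_card this
  | succ i ih =>
    intro t' τ hτT hτ
    set σ : Finset V := T.filter (fun s => s = t' ∨ Arrow u w F c T R B s t') with hσ
    have hσcard : σ.card ≤ B * ((4 * K + 1) * (2 * g)) + 1 := by
      have h1 : σ ⊆ insert t' (T.filter (fun s => Arrow u w F c T R B s t')) := by
        intro s hs
        rw [hσ, mem_filter] at hs
        rw [mem_insert, mem_filter]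
        rcases hs.2 with h | h
        · exact Or.inl h
        · exact Or.inr ⟨hs.1, h⟩
      have h2 := card_arrow h t' (T.filter (fun s => Arrow u w F c T R B s t'))
        (filter_subset _ _) (fun s hs => (mem_filter.1 hs).2)
      have h3 := card_le_card h1
      have h4 := card_insert_le t' (T.filter (fun s => Arrow u w F c T R B s t'))
      omega
    have hsub : τ ⊆ σ.biUnion (fun s => τ.filter (fun t => NN (Arrow u w F c T R B) i t s)) := by
      intro t ht
      obtain ⟨s, hs, hs'⟩ := hτ t ht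
      rw [mem_biUnion]
      refine ⟨s, ?_, mem_filter.2 ⟨ht, hs⟩⟩
      rw [hσ, mem_filter]
      exact ⟨NN_mem (hτT ht) i s hs, hs'⟩
    calc τ.card ≤ _ := card_le_card hsub
      _ ≤ σ.card * (B * ((4 * K + 1) * (2 * g)) + 1) ^ i := by
          apply card_biUnion_le_card_mul
          intro s _
          exact ih s _ ((filter_subset _ _).trans hτT) (fun t ht => (mem_filter.1 ht).2)
      _ ≤ (B * ((4 * K + 1) * (2 * g)) + 1) * (B * ((4 * K + 1) * (2 * g)) + 1) ^ i :=
          Nat.mul_le_mul_right _ hσcard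
      _ = (B * ((4 * K + 1) * (2 * g)) + 1) ^ (i + 1) := by ring

omit [Fintype V] in
theorem sum_cost {F : Finset E} {Z T : Finset V} {R : V → Finset V} {c : V → E → ℕ}
    {g B K k : ℕ} (h : Regions u w F Z T R c g B K) (cost : E → ℝ) (hcost : ∀ e, 0 ≤ cost e) :
    ∑ t ∈ T, ∑ e ∈ Fsel u w F c T R B k t, cost e ≤
      ((2 * g * (B * ((4 * K + 1) * (2 * g)) + 1) ^ k : ℕ) : ℝ) * ∑ e ∈ F, cost e := by
  classical
  have hsub : ∀ t, Fsel u w F c T R B k t ⊆ F := by
    intro t
    simp only [Fsel]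
    exact filter_subset _ _
  have h1 : ∀ t ∈ T, ∑ e ∈ Fsel u w F c T R B k t, cost e =
      ∑ e ∈ F, if e ∈ Fsel u w F c T R B k t then cost e else 0 := by
    intro t _
    rw [← sum_filter]
    congr 1
    ext e
    rw [mem_filter]
    exact ⟨fun he => ⟨hsub t he, he⟩, fun he => he.2⟩
  rw [sum_congr rfl h1, sum_comm, mul_sum]
  apply sum_le_sum
  intro e he
  rw [← sum_filter, sum_const, nsmul_eq_mul]
  apply mul_le_mul_of_nonneg_right _ (hcost e)
  norm_cast
  have h2 : T.filter (fun t => e ∈ Fsel u w F c T R B k t) ⊆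
      (T.filter (fun t' => touch (u := u) (w := w) e (R t'))).biUnion
        (fun t' => T.filter (fun t => NN (Arrow u w F c T R B) k t t')) := by
    intro t ht
    rw [mem_filter] at ht
    obtain ⟨htT, ht⟩ := ht
    simp only [Fsel, mem_filter] at ht
    obtain ⟨_, t', ht', hN, htouch⟩ := ht
    rw [mem_biUnion]
    exact ⟨t', mem_filter.2 ⟨ht', htouch⟩, mem_filter.2 ⟨htT, hN⟩⟩
  have htouchcard : (T.filter (fun s => touch (u := u) (w := w) e (R s))).card ≤ 2 * g := by
    have : T.filter (fun t' => touch (u := u) (w := w) e (R t')) =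
        T.filter (fun t' => u e ∈ R t') ∪ T.filter (fun t' => w e ∈ R t') := by
      ext x
      rw [mem_union, mem_filter, mem_filter, mem_filter]
      exact and_or_left
    rw [this]
    have h1 := h.overlap (u e) (T.filter (fun t' => u e ∈ R t')) (filter_subset _ _)
      (fun t' ht' => (mem_filter.1 ht').2)
    have h2 := h.overlap (w e) (T.filter (fun t' => w e ∈ R t')) (filter_subset _ _)
      (fun t' ht' => (mem_filter.1 ht').2)
    have h3 := card_union_le (T.filter (fun t' => u e ∈ R t')) (T.filter (fun t' => w e ∈ R t'))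
    omega
  calc (T.filter (fun t => e ∈ Fsel u w F c T R B k t)).card ≤ _ := card_le_card h2
    _ ≤ (T.filter (fun s => touch (u := u) (w := w) e (R s))).card *
        (B * ((4 * K + 1) * (2 * g)) + 1) ^ k := by
        apply card_biUnion_le_card_mul
        intro t' _
        exact card_NN h k t' _ (filter_subset _ _) (fun t ht => (mem_filter.1 ht).2)
    _ ≤ 2 * g * (B * ((4 * K + 1) * (2 * g)) + 1) ^ k := Nat.mul_le_mul_right _ htouchcard

/-- overlap constant -/
def gg (D : ℕ) : ℕ := (D + 1) ^ (D + 2) + 1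

/-- boundary constant -/
def BB (D : ℕ) : ℕ := bnd D (D + 1)

/-- class size -/
def KK (D : ℕ) : ℕ := (2 * gg D * D + 1) * BB D + 1

/-- number of steps -/
def kk (D : ℕ) : ℕ := 2 * gg D * D + 1

/-- the final constant -/
def MM (D : ℕ) : ℕ := 2 * gg D * (BB D * ((4 * KK D + 1) * (2 * gg D)) + 1) ^ kk D

omit [DecidableEq E] in
theorem core_regions [DecidableEq E] {D : ℕ} {P : Finset E → Prop}
    (hmono : ∀ X Y : Finset E, X ⊆ Y → P X → P Y) (hD : ∀ X : Finset E, D ≤ X.card → P X)
    {F : Finset E} {Z T : Finset V} (hTZ : T ⊆ Z)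
    (hF : ∀ t ∈ T, ∀ S, t ∈ S → Disjoint S (Z.erase t) → P (cut u w F S))
    (hmin : ∀ e ∈ F, ∃ t ∈ T, ∃ S, t ∈ S ∧ Disjoint S (Z.erase t) ∧ ¬ P (cut u w (F.erase e) S)) :
    ∃ R c, Regions u w F Z T R c (gg D) (BB D) (KK D) := by
  classical
  have hblk : ∀ v, ∃ c : E → ℕ, ∀ e ∈ F.filter (fun e' => inc u w v e'),
      ((F.filter (fun e' => inc u w v e')).filter (fun e' => c e' = c e)).card ≤ 2 * KK D ∧
      ((F.filter (fun e' => inc u w v e')).filter (fun e' => c e' = c e) =
        F.filter (fun e' => inc u w v e') ∨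
        KK D ≤ ((F.filter (fun e' => inc u w v e')).filter (fun e' => c e' = c e)).card) := by
    intro v
    exact exists_blocks (KK D) (by unfold KK; omega) _ _ rfl
  choose c hc using hblk
  let R : V → Finset V := fun t => insert t (region u w F D {t} (Z.erase t))
  have hsub : ∀ t S, Small u w F D {t} (Z.erase t) S → S ⊆ R t := by
    intro t S hS v hv
    exact mem_insert_of_mem (mem_region.2 ⟨S, hS, hv⟩)
  have htriv : ∀ (Y : Finset V) (X : Finset V) (S : Finset V), X ⊆ S → Disjoint S Y →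
      D + 1 ≤ (cut u w F S).card + (D + 1) := fun _ _ _ _ _ => by omega
  have hcard : ∀ t S, Small u w F D {t} (Z.erase t) S → (cut u w F (R t)).card ≤ BB D := by
    intro t S hS
    have ht : t ∈ region u w F D {t} (Z.erase t) :=
      mem_region.2 ⟨S, hS, hS.1 (mem_singleton_self t)⟩
    have hR : R t = region u w F D {t} (Z.erase t) := insert_eq_of_mem ht
    rw [hR]
    exact card_cut_region (D + 1) {t} (conn_singleton F t) ⟨t, mem_singleton_self t⟩
      (htriv (Z.erase t) {t})
  have hmemR : ∀ t v, v ∈ R t → v ≠ t → ∃ S, Small u w F D {t} (Z.erase t) S ∧ v ∈ S := by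
    intro t v hv hne
    rcases mem_insert.1 hv with h | h
    · exact absurd h hne
    · exact mem_region.1 h
  refine ⟨R, c, ⟨hTZ, fun t _ => mem_insert_self _ _, ?_, ?_, ?_, ?_, ?_, ?_, ?_⟩⟩
  · intro t _
    rw [disjoint_left]
    intro v hv hvZ
    by_cases hne : v = t
    · exact (mem_erase.1 hvZ).1 hne
    · obtain ⟨S, hS, hvS⟩ := hmemR t v hv hne
      exact disjoint_left.1 hS.2.1 hvS hvZ
  · intro t _ A h1 h2
    obtain ⟨x, hx⟩ := h1
    obtain ⟨y, hy⟩ := h2
    rw [mem_inter] at hx
    rw [mem_sdiff] at hy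
    by_cases htA : t ∈ A
    · have hne : y ≠ t := fun h => hy.2 (h ▸ htA)
      obtain ⟨S, hS, hyS⟩ := hmemR t y hy.1 hne
      obtain ⟨e, he, h3, h4⟩ := hS.2.2.1 A ⟨t, mem_inter.2 ⟨hS.1 (mem_singleton_self t), htA⟩⟩
        ⟨y, mem_sdiff.2 ⟨hyS, hy.2⟩⟩
      exact ⟨e, he, hsub t S hS h3, hsub t S hS h4⟩
    · have hne : x ≠ t := fun h => htA (h ▸ hx.2)
      obtain ⟨S, hS, hxS⟩ := hmemR t x hx.1 hne
      obtain ⟨e, he, h3, h4⟩ := hS.2.2.1 A ⟨x, mem_inter.2 ⟨hxS, hx.2⟩⟩
        ⟨t, mem_sdiff.2 ⟨hS.1 (mem_singleton_self t), htA⟩⟩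
      exact ⟨e, he, hsub t S hS h3, hsub t S hS h4⟩
  · intro v τ hτT hτ
    have h1 : (τ.erase v).card ≤ (D + 1) ^ (D + 1 + 1) := by
      apply card_tau (u := u) (w := w) (F := F) (D := D) (Z := Z) (D + 1) {v}
        (conn_singleton F v) ⟨v, mem_singleton_self v⟩ (htriv Z {v}) (τ.erase v)
        ((erase_subset _ _).trans (hτT.trans hTZ))
      intro t ht
      rw [mem_erase] at ht
      obtain ⟨S, hS, hvS⟩ := hmemR t v (hτ t ht.2) (fun h => ht.1 h.symm)
      exact ⟨S, ⟨singleton_subset_iff.2 hvS, hS.2⟩, hS.1 (mem_singleton_self t)⟩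
    have h2 : τ.card ≤ (τ.erase v).card + 1 := by
      have := pred_card_le_card_erase (s := τ) (a := v)
      omega
    unfold gg
    have h3 : (D + 1) ^ (D + 1 + 1) = (D + 1) ^ (D + 2) := rfl
    omega
  · intro t _ v hv hne
    obtain ⟨S, hS, _⟩ := hmemR t v hv hne
    exact hcard t S hS
  · intro e he
    obtain ⟨t, ht, S, htS, hSZ, hnP⟩ := hmin e he
    obtain ⟨C, hC1, hC2, hC3, hC4⟩ := exists_component (conn_singleton (u := u) (w := w) F t)
      (singleton_subset_iff.2 htS)
    have htC : t ∈ C := hC1 (mem_singleton_self t)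
    have hCZ : Disjoint C (Z.erase t) := hSZ.mono_left hC2
    have hPC := hF t ht C htC hCZ
    have heC : e ∈ cut u w F C := by
      by_contra hno
      apply hnP
      apply hmono _ _ _ hPC
      intro f hf
      have hfe : f ≠ e := fun h => hno (h ▸ hf)
      have hfS := hC4 hf
      rw [mem_cut] at hfS ⊢
      exact ⟨mem_erase.2 ⟨hfe, hfS.1⟩, hfS.2⟩
    have hcardS : (cut u w F S).card ≤ D := by
      have h1 : (cut u w (F.erase e) S).card < D := by
        by_contra hge
        exact hnP (hD _ (by omega))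
      have h2 : cut u w F S ⊆ insert e (cut u w (F.erase e) S) := by
        intro f hf
        rw [mem_insert]
        by_cases hfe : f = e
        · exact Or.inl hfe
        · right
          rw [mem_cut] at hf ⊢
          exact ⟨mem_erase.2 ⟨hfe, hf.1⟩, hf.2⟩
      have h3 := card_le_card h2
      have h4 := card_insert_le e (cut u w (F.erase e) S)
      omega
    have hsmall : Small u w F D {t} (Z.erase t) C := ⟨hC1, hCZ, hC3, (card_le_card hC4).trans hcardS⟩
    refine ⟨t, ht, ?_, hcard t C hsmall⟩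
    rw [mem_cut] at heC
    by_cases h1 : u e ∈ C
    · exact Or.inl (hsub t C hsmall h1)
    · by_cases h2 : w e ∈ C
      · exact Or.inr (hsub t C hsmall h2)
      · exact absurd ⟨fun h => absurd h h1, fun h => absurd h h2⟩ heC.2
  · intro v e he hinc
    have := (hc v e (mem_filter.2 ⟨he, hinc⟩)).1
    simp only [cls]
    convert this using 3
  · intro v e he hinc
    rcases (hc v e (mem_filter.2 ⟨he, hinc⟩)).2 with h | h
    · left
      intro e' he' hinc'
      have h1 : e' ∈ F.filter (fun e' => inc u w v e') := mem_filter.2 ⟨he', hinc'⟩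
      rw [← h] at h1
      simp only [cls]
      convert h1 using 3
    · right
      simp only [cls]
      convert h using 3

/-- Cost sharing for an arbitrary upward closed requirement on cuts that holds for all edge
sets with at least `D` elements. -/
theorem core {D : ℕ} {P : Finset E → Prop}
    (hmono : ∀ X Y : Finset E, X ⊆ Y → P X → P Y) (hD : ∀ X : Finset E, D ≤ X.card → P X)
    {F : Finset E} {Z T : Finset V} (hTZ : T ⊆ Z)
    (hF : ∀ t ∈ T, ∀ S, t ∈ S → Disjoint S (Z.erase t) → P (cut u w F S))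
    (cost : E → ℝ) (hcost : ∀ e, 0 ≤ cost e) :
    ∃ Fs : V → Finset E,
      (∀ t ∈ T, ∀ S, t ∈ S → Disjoint S (Z.erase t) → P (cut u w (Fs t) S)) ∧
      ∑ t ∈ T, ∑ e ∈ Fs t, cost e ≤ (MM D : ℝ) * ∑ e ∈ F, cost e := by
  classical
  -- a minimal feasible subset
  let Q : Finset E → Prop := fun G =>
    ∀ t ∈ T, ∀ S, t ∈ S → Disjoint S (Z.erase t) → P (cut u w G S)
  obtain ⟨G, hG, hGmin⟩ := exists_min_image (F.powerset.filter Q) (fun G => G.card)
    ⟨F, mem_filter.2 ⟨mem_powerset.2 subset_rfl, hF⟩⟩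
  rw [mem_filter, mem_powerset] at hG
  obtain ⟨hGF, hGQ⟩ := hG
  have hmin : ∀ e ∈ G, ∃ t ∈ T, ∃ S, t ∈ S ∧ Disjoint S (Z.erase t) ∧
      ¬ P (cut u w (G.erase e) S) := by
    intro e he
    by_contra hno
    push Not at hno
    have h1 := hGmin (G.erase e) (mem_filter.2 ⟨mem_powerset.2 ((erase_subset _ _).trans hGF), hno⟩)
    have h2 := card_erase_lt_of_mem he
    omega
  obtain ⟨R, c, hR⟩ := core_regions hmono hD hTZ hGQ hmin
  refine ⟨Fsel u w G c T R (BB D) (kk D), ?_, ?_⟩
  · intro t ht S htS hSZ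
    obtain ⟨C, hC1, hC2, hC3, hC4⟩ := exists_component (conn_singleton (u := u) (w := w) G t)
      (singleton_subset_iff.2 htS)
    have htC : t ∈ C := hC1 (mem_singleton_self t)
    have hCZ : Disjoint C (Z.erase t) := hSZ.mono_left hC2
    have hsubG : Fsel u w G c T R (BB D) (kk D) t ⊆ G := by
      simp only [Fsel]
      exact filter_subset _ _
    have hCS : cut u w (Fsel u w G c T R (BB D) (kk D) t) C ⊆
        cut u w (Fsel u w G c T R (BB D) (kk D) t) S := by
      intro e he
      have h1 := hC4 (cut_subset_cut hsubG C he)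
      rw [mem_cut] at he h1 ⊢
      exact ⟨he.1, h1.2⟩
    apply hmono _ _ hCS
    rcases escape hR rfl rfl ht hC3 htC hCZ with h | h
    · apply hmono _ _ _ (hGQ t ht C htC hCZ)
      intro e he
      rw [mem_cut] at he ⊢
      exact ⟨h (mem_cut.2 he), he.2⟩
    · exact hD _ h
  · refine (sum_cost hR cost hcost).trans ?_
    unfold MM
    apply mul_le_mul_of_nonneg_left _ (Nat.cast_nonneg _)
    exact sum_le_sum_of_subset_of_nonneg hGF (fun e _ _ => hcost e)

end Pool.Agent.Lib.MP_cbc3a4_lc
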